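import Mathlib

set_option autoImplicit false

namespace Pool.Agent.W2helper82.CU

open Finset

theorem spr_core (n k R : ℕ) (𝒮 : Finset (Finset (Fin n))) (hne : 𝒮.Nonempty)
    (hk : ∀ s ∈ 𝒮, s.card = k) (hR : 1 ≤ R) : ∃ Z : Finset (Fin n), (∃ s ∈ 𝒮, Z ⊆ s) ∧
    𝒮.card ≤ R ^ Z.card * (𝒮.filter (fun s => Z ⊆ s)).card ∧
    ∀ Y, Z ⊆ Y → (𝒮.filter (fun s => Y ⊆ s)).card * R ^ (Y.card - Z.card) ≤
      (𝒮.filter (fun s => Z ⊆ s)).card := by
  obtain ⟨Z, -, hZ⟩ := Finset.exists_max_image (univ : Finset (Finset (Fin n)))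
    (fun Z => (𝒮.filter (fun s => Z ⊆ s)).card * R ^ Z.card) ⟨∅, mem_univ _⟩
  have h0 : 𝒮.card ≤ (𝒮.filter (fun s => Z ⊆ s)).card * R ^ Z.card := by
    have := hZ ∅ (mem_univ _)
    simpa using this
  have h1 : 0 < (𝒮.filter (fun s => Z ⊆ s)).card * R ^ Z.card :=
    lt_of_lt_of_le (card_pos.mpr hne) h0
  have h2 : 0 < (𝒮.filter (fun s => Z ⊆ s)).card := Nat.pos_of_mul_pos_right h1
  obtain ⟨s, hs⟩ := card_pos.mp h2
  rw [mem_filter] at hs
  refine ⟨Z, ⟨s, hs.1, hs.2⟩, by rw [mul_comm]; exact h0, ?_⟩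
  intro Y hY
  have h3 := hZ Y (mem_univ _)
  have hc : Z.card ≤ Y.card := card_le_card hY
  have h4 : R ^ Y.card = R ^ (Y.card - Z.card) * R ^ Z.card := by
    rw [← pow_add, Nat.sub_add_cancel hc]
  rw [h4, ← mul_assoc] at h3
  exact Nat.le_of_mul_le_mul_right h3 (by positivity)

theorem card_fix (n P : ℕ) (hP : 1 ≤ P) (T : Finset (Fin n)) (j : Fin P) :
    ((univ.filter (fun π : Fin n → Fin P => ∀ v ∈ T, π v = j)).card : ℝ) =
      (P : ℝ) ^ n / (P : ℝ) ^ T.card := by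
  have hP0 : (P : ℝ) ≠ 0 := by positivity
  have h1 : (univ.filter (fun π : Fin n → Fin P => ∀ v ∈ T, π v = j)) =
      Fintype.piFinset (fun v => if v ∈ T then ({j} : Finset (Fin P)) else univ) := by
    ext π
    simp only [mem_filter, mem_univ, true_and, Fintype.mem_piFinset]
    constructor
    · intro h v
      split_ifs with hv
      · rw [mem_singleton]; exact h v hv
      · exact mem_univ _
    · intro h v hv
      have := h v
      rw [if_pos hv, mem_singleton] at this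
      exact this
  rw [h1, Fintype.card_piFinset]
  have h2 : ∏ v : Fin n, (if v ∈ T then ({j} : Finset (Fin P)) else univ).card =
      P ^ (n - T.card) := by
    have h3 : ∀ v : Fin n, (if v ∈ T then ({j} : Finset (Fin P)) else univ).card =
        if v ∈ T then 1 else P := by
      intro v
      split_ifs
      · simp
      · simp
    rw [prod_congr rfl (fun v _ => h3 v), prod_ite]
    simp only [prod_const_one, one_mul, prod_const]
    congr 1
    have h4 : (univ.filter (fun v : Fin n => v ∉ T)) = univ \ T := by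
      ext v; simp
    rw [h4, card_sdiff_of_subset (subset_univ _)]
    simp
  rw [h2]
  have hle : T.card ≤ n := by
    have := card_le_univ T
    simpa using this
  rw [eq_div_iff (pow_ne_zero _ hP0)]
  push_cast
  rw [← pow_add, Nat.sub_add_cancel hle]

theorem inter_sum (n k P R : ℕ) (𝒮 : Finset (Finset (Fin n))) (hP : 1 ≤ P) (hR : 1 ≤ R)
    (hk : ∀ s ∈ 𝒮, s.card = k)
    (hsp : ∀ Y : Finset (Fin n), (𝒮.filter (fun s => Y ⊆ s)).card * R ^ Y.card ≤ 𝒮.card)
    (s : Finset (Fin n)) (hs : s ∈ 𝒮) :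
    ∑ s' ∈ 𝒮, (P : ℝ) ^ (s ∩ s').card ≤ (𝒮.card : ℝ) * (1 + (P : ℝ) / R) ^ k := by
  have hR0 : (0 : ℝ) < R := by exact_mod_cast hR
  have h1 : ∀ s' ∈ 𝒮, (P : ℝ) ^ (s ∩ s').card ≤
      ∑ Y ∈ s.powerset, if Y ⊆ s' then (P : ℝ) ^ Y.card else 0 := by
    intro s' hs'
    have h2 : (if (s ∩ s') ⊆ s' then (P : ℝ) ^ (s ∩ s').card else 0) ≤
        ∑ Y ∈ s.powerset, if Y ⊆ s' then (P : ℝ) ^ Y.card else 0 := by
      apply single_le_sum (f := fun Y => if Y ⊆ s' then (P : ℝ) ^ Y.card else 0)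
      · intro Y _
        split_ifs
        · positivity
        · exact le_refl 0
      · rw [mem_powerset]; exact inter_subset_left
    rw [if_pos inter_subset_right] at h2
    exact h2
  refine (sum_le_sum h1).trans ?_
  rw [sum_comm]
  have h3 : ∀ Y ∈ s.powerset, ∑ s' ∈ 𝒮, (if Y ⊆ s' then (P : ℝ) ^ Y.card else 0) ≤
      (𝒮.card : ℝ) * (((P : ℝ) / R) ^ Y.card * 1 ^ (s.card - Y.card)) := by
    intro Y _
    rw [← sum_filter, sum_const, nsmul_eq_mul]
    have h4 : ((𝒮.filter (fun s => Y ⊆ s)).card : ℝ) * (R : ℝ) ^ Y.card ≤ (𝒮.card : ℝ) := by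
      exact_mod_cast hsp Y
    have h5 : ((𝒮.filter (fun s => Y ⊆ s)).card : ℝ) ≤ (𝒮.card : ℝ) / (R : ℝ) ^ Y.card := by
      rw [le_div_iff₀ (by positivity)]; exact h4
    calc ((𝒮.filter (fun s => Y ⊆ s)).card : ℝ) * (P : ℝ) ^ Y.card
        ≤ (𝒮.card : ℝ) / (R : ℝ) ^ Y.card * (P : ℝ) ^ Y.card :=
          mul_le_mul_of_nonneg_right h5 (by positivity)
      _ = _ := by rw [div_pow, one_pow]; ring
  refine (sum_le_sum h3).trans ?_
  rw [← mul_sum, Finset.sum_pow_mul_eq_add_pow, hk s hs, add_comm]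

theorem part_core (n k P R : ℕ) (𝒮 : Finset (Finset (Fin n))) (hP : 1 ≤ P) (hR : 1 ≤ R)
    (hk : ∀ s ∈ 𝒮, s.card = k) (hne : 𝒮.Nonempty)
    (hsp : ∀ Y : Finset (Fin n), (𝒮.filter (fun s => Y ⊆ s)).card * R ^ Y.card ≤ 𝒮.card) :
    ∃ π : Fin n → Fin P,
    ((univ.filter (fun j : Fin P => 2 * P ^ k * (𝒮.filter (fun s => ∀ v ∈ s, π v = j)).card <
      𝒮.card)).card : ℝ) ≤ 4 * ((1 + (P : ℝ) / R) ^ k - 1) * P := by
  classical
  have hP0 : (0 : ℝ) < P := by exact_mod_cast hP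
  have hR0 : (0 : ℝ) < R := by exact_mod_cast hR
  have hS0 : (0 : ℝ) < (𝒮.card : ℝ) := by exact_mod_cast card_pos.mpr hne
  have : Nonempty (Fin P) := ⟨⟨0, hP⟩⟩
  set X : (Fin n → Fin P) → Fin P → ℝ :=
    fun π j => ((𝒮.filter (fun s => ∀ v ∈ s, π v = j)).card : ℝ) with hX
  set μ : ℝ := (𝒮.card : ℝ) / (P : ℝ) ^ k with hμ
  have hμ0 : 0 < μ := by positivity
  set Θ : ℝ := (1 + (P : ℝ) / R) ^ k with hΘ
  have hXs : ∀ π j, X π j = ∑ s ∈ 𝒮, if (∀ v ∈ s, π v = j) then (1 : ℝ) else 0 := by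
    intro π j
    rw [hX]
    simp only
    rw [sum_boole]
  -- first moment
  have m1 : ∀ j, ∑ π : Fin n → Fin P, X π j = (P : ℝ) ^ n * μ := by
    intro j
    calc ∑ π : Fin n → Fin P, X π j
        = ∑ s ∈ 𝒮, ∑ π : Fin n → Fin P, (if (∀ v ∈ s, π v = j) then (1 : ℝ) else 0) := by
          rw [sum_comm]
          exact sum_congr rfl (fun π _ => hXs π j)
      _ = ∑ s ∈ 𝒮, (P : ℝ) ^ n / (P : ℝ) ^ k := by
          refine sum_congr rfl (fun s hs => ?_)
          rw [sum_boole, card_fix n P hP s j, hk s hs]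
      _ = _ := by rw [sum_const, nsmul_eq_mul, hμ]; ring
  -- second moment
  have m2 : ∀ j, ∑ π : Fin n → Fin P, (X π j) ^ 2 ≤ (P : ℝ) ^ n * (μ ^ 2 * Θ) := by
    intro j
    have e1 : ∀ π : Fin n → Fin P, (X π j) ^ 2 =
        ∑ s ∈ 𝒮, ∑ s' ∈ 𝒮, if (∀ v ∈ s ∪ s', π v = j) then (1 : ℝ) else 0 := by
      intro π
      rw [hXs, sq, sum_mul_sum]
      refine sum_congr rfl (fun s _ => sum_congr rfl (fun s' _ => ?_))
      by_cases ha : ∀ v ∈ s, π v = j
      · by_cases hb : ∀ v ∈ s', π v = j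
        · rw [if_pos ha, if_pos hb, if_pos, one_mul]
          intro v hv
          rcases mem_union.mp hv with h | h
          · exact ha v h
          · exact hb v h
        · rw [if_pos ha, if_neg hb, if_neg, mul_zero]
          intro h
          exact hb (fun v hv => h v (mem_union_right _ hv))
      · rw [if_neg ha, zero_mul, if_neg]
        intro h
        exact ha (fun v hv => h v (mem_union_left _ hv))
    calc ∑ π : Fin n → Fin P, (X π j) ^ 2
        = ∑ s ∈ 𝒮, ∑ s' ∈ 𝒮, ∑ π : Fin n → Fin P,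
            (if (∀ v ∈ s ∪ s', π v = j) then (1 : ℝ) else 0) := by
          rw [sum_congr rfl (fun π _ => e1 π), sum_comm]
          exact sum_congr rfl (fun s _ => sum_comm)
      _ = ∑ s ∈ 𝒮, ∑ s' ∈ 𝒮, (P : ℝ) ^ n / ((P : ℝ) ^ k) ^ 2 * (P : ℝ) ^ (s ∩ s').card := by
          refine sum_congr rfl (fun s hs => sum_congr rfl (fun s' hs' => ?_))
          rw [sum_boole, card_fix n P hP (s ∪ s') j]
          have hc : (s ∪ s').card + (s ∩ s').card = k + k := by
            rw [card_union_add_card_inter, hk s hs, hk s' hs']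
          have hp : (P : ℝ) ^ (s ∪ s').card * (P : ℝ) ^ (s ∩ s').card = ((P : ℝ) ^ k) ^ 2 := by
            rw [← pow_add, hc, pow_add, sq]
          rw [← hp]
          have q1 : (P : ℝ) ^ (s ∪ s').card ≠ 0 := by positivity
          have q2 : (P : ℝ) ^ (s ∩ s').card ≠ 0 := by positivity
          field_simp
      _ = (P : ℝ) ^ n / ((P : ℝ) ^ k) ^ 2 * ∑ s ∈ 𝒮, ∑ s' ∈ 𝒮, (P : ℝ) ^ (s ∩ s').card := by
          rw [mul_sum]
          exact sum_congr rfl (fun s _ => by rw [mul_sum])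
      _ ≤ (P : ℝ) ^ n / ((P : ℝ) ^ k) ^ 2 * ∑ s ∈ 𝒮, (𝒮.card : ℝ) * Θ := by
          refine mul_le_mul_of_nonneg_left ?_ (by positivity)
          exact sum_le_sum (fun s hs => inter_sum n k P R 𝒮 hP hR hk hsp s hs)
      _ = _ := by rw [sum_const, nsmul_eq_mul, hμ]; ring
  -- variance
  have m3 : ∀ j, ∑ π : Fin n → Fin P, (X π j - μ) ^ 2 ≤ (P : ℝ) ^ n * (μ ^ 2 * (Θ - 1)) := by
    intro j
    have e2 : ∑ π : Fin n → Fin P, (X π j - μ) ^ 2 =
        ∑ π : Fin n → Fin P, (X π j) ^ 2 - 2 * μ * ∑ π : Fin n → Fin P, X π j +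
          (P : ℝ) ^ n * μ ^ 2 := by
      have e3 : ∑ _π : Fin n → Fin P, μ ^ 2 = (P : ℝ) ^ n * μ ^ 2 := by
        rw [sum_const, nsmul_eq_mul, card_univ, Fintype.card_fun]
        simp
      rw [← e3, mul_sum, ← sum_sub_distrib, ← sum_add_distrib]
      exact sum_congr rfl (fun π _ => by ring)
    rw [e2, m1 j]
    have := m2 j
    nlinarith
  -- bad blocks
  have m4 : ∀ π : Fin n → Fin P,
      ((univ.filter (fun j : Fin P => 2 * P ^ k * (𝒮.filter (fun s => ∀ v ∈ s, π v = j)).card <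
        𝒮.card)).card : ℝ) * (μ ^ 2 / 4) ≤ ∑ j : Fin P, (X π j - μ) ^ 2 := by
    intro π
    calc _ = ∑ _j ∈ univ.filter (fun j : Fin P =>
          2 * P ^ k * (𝒮.filter (fun s => ∀ v ∈ s, π v = j)).card < 𝒮.card), (μ ^ 2 / 4) := by
          rw [sum_const, nsmul_eq_mul]
      _ ≤ ∑ j ∈ univ.filter (fun j : Fin P =>
          2 * P ^ k * (𝒮.filter (fun s => ∀ v ∈ s, π v = j)).card < 𝒮.card),
            (X π j - μ) ^ 2 := by
          refine sum_le_sum (fun j hj => ?_)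
          rw [mem_filter] at hj
          have h5 : (2 * (P : ℝ) ^ k * X π j) < (𝒮.card : ℝ) := by
            have := hj.2
            have h' : ((2 * P ^ k * (𝒮.filter (fun s => ∀ v ∈ s, π v = j)).card : ℕ) : ℝ) <
              (𝒮.card : ℝ) := by exact_mod_cast this
            push_cast at h'
            exact h'
          have h6 : X π j < μ / 2 := by
            rw [hμ, div_div, lt_div_iff₀ (by positivity)]
            linarith
          have h7 : μ / 2 ≤ μ - X π j := by linarith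
          have h8 : (μ / 2) ^ 2 ≤ (μ - X π j) ^ 2 := pow_le_pow_left₀ (by positivity) h7 2
          nlinarith
      _ ≤ _ := sum_le_sum_of_subset_of_nonneg (subset_univ _) (fun j _ _ => sq_nonneg _)
  have m5 : ∑ π : Fin n → Fin P,
      ((univ.filter (fun j : Fin P => 2 * P ^ k * (𝒮.filter (fun s => ∀ v ∈ s, π v = j)).card <
        𝒮.card)).card : ℝ) ≤ ∑ _π : Fin n → Fin P, 4 * (Θ - 1) * P := by
    have h9 : (∑ π : Fin n → Fin P,
      ((univ.filter (fun j : Fin P => 2 * P ^ k * (𝒮.filter (fun s => ∀ v ∈ s, π v = j)).card <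
        𝒮.card)).card : ℝ)) * (μ ^ 2 / 4) ≤ (P : ℝ) * ((P : ℝ) ^ n * (μ ^ 2 * (Θ - 1))) := by
      rw [sum_mul]
      refine (sum_le_sum (fun π _ => m4 π)).trans ?_
      rw [sum_comm]
      refine (sum_le_sum (fun j _ => m3 j)).trans ?_
      rw [sum_const, nsmul_eq_mul, card_univ, Fintype.card_fin]
    have h10 : ∑ _π : Fin n → Fin P, 4 * (Θ - 1) * (P : ℝ) = (P : ℝ) ^ n * (4 * (Θ - 1) * P) := by
      rw [sum_const, nsmul_eq_mul, card_univ, Fintype.card_fun]
      simp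
    rw [h10]
    have h11 : (0 : ℝ) < μ ^ 2 / 4 := by positivity
    rw [← mul_le_mul_iff_left₀ h11]
    refine h9.trans (le_of_eq ?_)
    ring
  obtain ⟨π, -, hπ⟩ := exists_le_of_sum_le (univ_nonempty) m5
  exact ⟨π, hπ⟩

end Pool.Agent.W2helper82.CU
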