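import Pool.Agent.W2helper22.CU.Stmts3
import Pool.Agent.W2helper82.CU.PartCore

set_option autoImplicit false

namespace Pool.Agent.W2helper82.CU

open Pool.Agent.W2helper22.CU

theorem p_spr : P_SPR := fun n k R 𝒮 hne hk hR => spr_core n k R 𝒮 hne hk hR

theorem p_part : P_PART := fun n k P R 𝒮 hP hR hk hne hsp =>
  part_core n k P R 𝒮 hP hR hk hne hsp

end Pool.Agent.W2helper82.CU
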